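import Pool.Agent.Lib.MP_8a95e3_al.Fin
import Pool.Agent.Lib.MP_8a95e3_al.MEnd

/-!
# The unique minimal insoluble variety of groups of exponent 4, and the finite basis theorem outside it

There is an insoluble group `G₀` of exponent 4 such that every variety of exponent 4 which does not contain `G₀` is
finitely based and consists of soluble groups.
-/

namespace Pool.Agent.Results.MP_8a95e3_al.MinimalInsoluble

/-- There is a group `G₀` of exponent dividing 4 which is not soluble and has the following property.  Let `S` be any set of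
group laws in countably many variables which contains `x ^ 4 = 1` and which is not satisfied by `G₀`.  Then the laws `S` have
a finite basis, and all groups which satisfy `S` are soluble. -/
theorem result :
    ∃ (G₀ : Type) (_ : Group G₀), (∀ g : G₀, g ^ 4 = 1) ∧ ¬ Group.IsSolvable G₀ ∧
      ∀ S : Set (FreeGroup ℕ), (FreeGroup.of 0) ^ 4 ∈ S →
        (¬ ∀ w ∈ S, ∀ f : ℕ → G₀, FreeGroup.lift f w = 1) →
          (∃ T : Finset (FreeGroup ℕ), ∀ (G : Type) [Group G],
            ((∀ w ∈ S, ∀ f : ℕ → G, FreeGroup.lift f w = 1) ↔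
              (∀ w ∈ T, ∀ f : ℕ → G, FreeGroup.lift f w = 1))) ∧
          (∀ (G : Type) [Group G],
            (∀ w ∈ S, ∀ f : ℕ → G, FreeGroup.lift f w = 1) → Group.IsSolvable G) := by
  haveI : E4.WW.Normal := E4.verb_normal E4.WW_verb
  refine ⟨E4.F ⧸ E4.WW, inferInstance, (E4.law_quot E4.WW_verb).1, E4.main_insol E4.exists_insol, ?_⟩
  intro S h4 hns
  obtain ⟨⟨T, hT⟩, hs⟩ := E4.main_S S h4 hns
  exact ⟨⟨T, fun G _ => hT G⟩, fun G _ hG => hs G hG⟩

end Pool.Agent.Results.MP_8a95e3_al.MinimalInsoluble
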